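import Mathlib
import Pool.Agent.R60.SC.Main

/-!
# Mutation invariance of the unrestricted red size

For every quiver `Q` and every vertex `k`, `uRed (μ_k Q) = uRed Q`.

The proof is the one of the project `Pool/Agent/R60/SC` of the starting files: sign coherence of
c-vectors (through consistent quantum scattering diagrams), and then a short argument on the
c-vectors equal to `± e_k`. The present file adds the statement in the form in which the question
is posed. The auxiliary lemmas record the facts behind the definitions: every mutable vertex is
exactly one of green and red, and the maximum in the definition of `uRed` is attained.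
-/

set_option autoImplicit false

namespace Pool.Agent.Results.MP_df9ae0_co.MutationInvariance

open Pool.Agent.R60.SC

section aux

variable {V : Type} [Fintype V] [DecidableEq V]

theorem bdd (Q : Quiv V) : BddAbove (Set.range fun w : List V => numRed w Q) := by
  refine ⟨Fintype.card V, ?_⟩
  rintro _ ⟨w, rfl⟩
  show Set.ncard _ ≤ _
  calc Set.ncard {i : V | IsRed (afterWord w Q) i} ≤ Set.ncard (Set.univ : Set V) :=
        Set.ncard_le_ncard (Set.subset_univ _) (Set.toFinite _)
    _ = Fintype.card V := by rw [Set.ncard_univ, Nat.card_eq_fintype_card]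

theorem attained (Q : Quiv V) : ∃ w : List V, numRed w Q = uRed Q :=
  Nat.sSup_mem (Set.range_nonempty _) (bdd Q)

theorem le_uRed (Q : Quiv V) (w : List V) : numRed w Q ≤ uRed Q :=
  le_csSup (bdd Q) ⟨w, rfl⟩

theorem green_iff_not_red (Q : Quiv V) (w : List V) (i : V) :
    IsGreen (afterWord w Q) i ↔ ¬ IsRed (afterWord w Q) i := by
  obtain ⟨hsk, -, -, hc⟩ := m_main V Q
  obtain ⟨hs, hne, -⟩ := sign_coherence V (matQ Q) hsk w
  have key : ∀ j, ((afterWord w Q).arr (Sum.inl i) (Sum.inr j) : ℤ)
      - ((afterWord w Q).arr (Sum.inr j) (Sum.inl i) : ℤ) = cRow w (matQ Q) j i := fun j => hc w i j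
  constructor
  · rintro ⟨j, hj⟩ ⟨j', hj'⟩
    have h1 := key j
    have h2 := key j'
    have h3 := (afterWord w Q).no_two_cycle (Sum.inl i) (Sum.inr j)
    have h4 := (afterWord w Q).no_two_cycle (Sum.inl i) (Sum.inr j')
    rcases hs i with h | h
    · have := h j'
      omega
    · have := h j
      omega
  · intro hr
    obtain ⟨j, hj⟩ := hne i
    refine ⟨j, ?_⟩
    have h1 := key j
    have h2 : ¬ 0 < (afterWord w Q).arr (Sum.inr j) (Sum.inl i) := fun h => hr ⟨j, h⟩
    have h3 := hs i
    by_contra h4
    apply hj
    rw [← h1]
    omega

end aux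

/-- **The unrestricted red size is invariant under mutation.** For every quiver `Q` on a finite
vertex set `V` and every vertex `k`, `uRed (μ_k Q) = uRed Q`. The second part records that
`uRed Q` is the maximum (and not only the supremum) of the numbers of red vertices. -/
theorem result (V : Type) [Fintype V] [DecidableEq V] (Q : Quiv V) :
    (∀ k : V, uRed (Q.mut (fun _ => false) k) = uRed Q) ∧
    IsGreatest (Set.range fun w : List V => numRed w Q) (uRed Q) :=
  ⟨fun k => uRed_mut V Q k, attained Q, by rintro _ ⟨w, rfl⟩; exact le_uRed Q w⟩

end Pool.Agent.Results.MP_df9ae0_co.MutationInvariance
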